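import Pool.Agent.Helper35.MS.StGB

/-! Project MS, module GLA: two by two matrices. -/

set_option autoImplicit false

namespace Helper21.MS

open Helper35.MS Helper35.PI Helper35.PI2 Helper32.CL
open scoped ContDiff Manifold Topology ENNReal BigOperators
open MeasureTheory Set Filter

theorem gla_inv (M : Matrix (Fin 2) (Fin 2) ℝ) (h : IsUnit M.det) :
    M⁻¹ 0 0 = M 1 1 / M.det ∧ M⁻¹ 0 1 = -M 0 1 / M.det ∧ M⁻¹ 1 0 = -M 1 0 / M.det ∧
      M⁻¹ 1 1 = M 0 0 / M.det := by
  rw [Matrix.inv_def, Ring.inverse_eq_inv', Matrix.adjugate_fin_two]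
  refine ⟨?_, ?_, ?_, ?_⟩ <;> simp [div_eq_mul_inv, mul_comm]

theorem hGLA (hFR : StFR) (hNR : StNR) : StGLA := by
  intro N f V x hLI hsym
  obtain ⟨hpos, hunit, -⟩ := hFR 2 N f x hLI
  have hD : 0 < (gram f x).det := hpos.det_pos
  have hs : 0 < sgm f x := Real.sqrt_pos.mpr hD
  have hs2 : sgm f x * sgm f x = (gram f x).det := Real.mul_self_sqrt hD.le
  obtain ⟨i00, i01, i10, i11⟩ := gla_inv (gram f x) hunit
  have hg : gram f x 1 0 = gram f x 0 1 := by
    unfold gram
    simp only [Matrix.of_apply]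
    exact real_inner_comm _ _
  have hdet : (gram f x).det = gram f x 0 0 * gram f x 1 1 - gram f x 0 1 * gram f x 0 1 := by
    rw [Matrix.det_fin_two, hg]
  have hA := hsym 1 0
  rw [hg] at i10
  have key : ∀ X Y : ℝ, X * (gram f x).det = 2 * Y → X * sgm f x = 2 * (Y / sgm f x) := by
    intro X Y h
    rw [← hs2] at h
    rw [← mul_div_assoc, eq_div_iff hs.ne']
    linarith
  have key2 : ∀ X Y : ℝ, X * (gram f x).det = 2 * Y → sgm f x * X = 2 * (Y / sgm f x) := by
    intro X Y h
    rw [mul_comm]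
    exact key X Y h
  have hDne := hD.ne'
  refine ⟨hs, ?_, ?_, ?_⟩
  · apply key
    rw [← real_inner_self_eq_norm_sq, ← real_inner_self_eq_norm_sq]
    unfold mcv nsq
    simp only [Fin.sum_univ_two, inner_add_left, inner_add_right, inner_smul_left,
      inner_smul_right, i00, i01, i10, i11, hA, conj_trivial]
    rw [real_inner_comm (sff f x 0 0) (sff f x 0 1), real_inner_comm (sff f x 0 0) (sff f x 1 1),
      real_inner_comm (sff f x 0 1) (sff f x 1 1)]
    generalize (inner ℝ (sff f x 0 0) (sff f x 0 0) : ℝ) = p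
    generalize (inner ℝ (sff f x 0 1) (sff f x 0 0) : ℝ) = q
    generalize (inner ℝ (sff f x 1 1) (sff f x 0 0) : ℝ) = r
    generalize (inner ℝ (sff f x 0 1) (sff f x 0 1) : ℝ) = s
    generalize (inner ℝ (sff f x 1 1) (sff f x 0 1) : ℝ) = t
    generalize (inner ℝ (sff f x 1 1) (sff f x 1 1) : ℝ) = u
    generalize (gram f x).det = D at *
    generalize gram f x 0 0 = a at *
    generalize gram f x 0 1 = b at *
    generalize gram f x 1 1 = c at *
    field_simp
    rw [hdet]
    ring
  · apply key2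
    unfold zcv mcv
    simp only [Fin.sum_univ_two, inner_add_left, inner_smul_left, i00, i01, i10, i11, hA,
      conj_trivial]
    generalize (inner ℝ (sff f x 0 0) (fderiv ℝ V x (ee 0)) : ℝ) = p
    generalize (inner ℝ (sff f x 0 1) (fderiv ℝ V x (ee 0)) : ℝ) = q
    generalize (inner ℝ (sff f x 1 1) (fderiv ℝ V x (ee 0)) : ℝ) = r
    generalize (inner ℝ (sff f x 0 0) (fderiv ℝ V x (ee 1)) : ℝ) = s
    generalize (inner ℝ (sff f x 0 1) (fderiv ℝ V x (ee 1)) : ℝ) = t
    generalize (inner ℝ (sff f x 1 1) (fderiv ℝ V x (ee 1)) : ℝ) = u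
    generalize (gram f x).det = D at *
    generalize gram f x 0 0 = a at *
    generalize gram f x 0 1 = b at *
    generalize gram f x 1 1 = c at *
    field_simp
    rw [hdet]
    ring
  · apply key2
    unfold zcv mcv
    simp only [Fin.sum_univ_two, inner_add_left, inner_smul_left, i00, i01, i10, i11, hA,
      conj_trivial]
    generalize (inner ℝ (sff f x 0 0) (fderiv ℝ V x (ee 0)) : ℝ) = p
    generalize (inner ℝ (sff f x 0 1) (fderiv ℝ V x (ee 0)) : ℝ) = q
    generalize (inner ℝ (sff f x 1 1) (fderiv ℝ V x (ee 0)) : ℝ) = r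
    generalize (inner ℝ (sff f x 0 0) (fderiv ℝ V x (ee 1)) : ℝ) = s
    generalize (inner ℝ (sff f x 0 1) (fderiv ℝ V x (ee 1)) : ℝ) = t
    generalize (inner ℝ (sff f x 1 1) (fderiv ℝ V x (ee 1)) : ℝ) = u
    generalize (gram f x).det = D at *
    generalize gram f x 0 0 = a at *
    generalize gram f x 0 1 = b at *
    generalize gram f x 1 1 = c at *
    field_simp
    rw [hdet]
    ring

end Helper21.MS
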